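import Pool.Agent.Lib.MP_95cf8e_co.Final
import Pool.Agent.Lib.MP_95cf8e_co.FixedT

/-!
# All but finitely many connected Kneser graphs are Class 0
-/

set_option autoImplicit false

namespace Pool.Agent.Results.MP_95cf8e_co.AlmostAllClassZero

/-- The pebbling number of the Kneser graph `K(m,t)`: the least `k` such that from every
configuration `D` of `k` pebbles and for every target `r`, pebbling moves (take two pebbles off a
vertex `u`, put one on a neighbour `v`) lead to a configuration with a pebble on `r`. Vertices are the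
`t`-element subsets of `Fin m`, adjacent when disjoint. -/
noncomputable def kneserPebbling (m t : ℕ) : ℕ :=
  sInf {k : ℕ | ∀ D : {s : Finset (Fin m) // s.card = t} → ℕ,
    ∑ v, D v = k →
    ∀ r : {s : Finset (Fin m) // s.card = t},
      ∃ D' : {s : Finset (Fin m) // s.card = t} → ℕ,
        Relation.ReflTransGen
          (fun A B : {s : Finset (Fin m) // s.card = t} → ℕ =>
            ∃ u v : {s : Finset (Fin m) // s.card = t},
              (SimpleGraph.fromRel
                  (fun a b : {s : Finset (Fin m) // s.card = t} =>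
                    Disjoint a.1 b.1)).Adj u v ∧
              2 ≤ A u ∧
              B = Function.update (Function.update A u (A u - 2)) v (A v + 1))
          D D' ∧ 1 ≤ D' r}

open Pool.Agent.Lib.MP_95cf8e_co in
/-- **Theorem.** `π(K(m,t)) = C(m,t)` for all but finitely many pairs `(m,t)` with `t ≥ 1` and
`m ≥ 2t+1`. -/
theorem result :
    {p : ℕ × ℕ | 1 ≤ p.2 ∧ 2 * p.2 + 1 ≤ p.1 ∧
      kneserPebbling p.1 p.2 ≠ p.1.choose p.2}.Finite := by
  obtain ⟨t0, h0⟩ := solvable
  refine Set.Finite.subset
    (Finset.finite_toSet (Finset.range (2 * t0 + 4 * t0 ^ 2 + 1) ×ˢ Finset.range t0)) ?_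
  rintro ⟨m, t⟩ ⟨ht, hm, hne⟩
  dsimp only at ht hm hne
  obtain ⟨s, rfl⟩ : ∃ s, m = 2 * t + s := ⟨m - 2 * t, by omega⟩
  have hs : 1 ≤ s := by omega
  have ht0 : t < t0 := by
    by_contra hcon
    push Not at hcon
    exact hne (sInf_of_solvable t s (fun C hC r hr => h0 t s hcon hs C hC r hr))
  have hs0 : s ≤ 4 * t ^ 2 := by
    by_contra hcon
    push Not at hcon
    exact hne (sInf_of_solvable t s
      (fun C hC r hr => solv_deg ht (deg_large t s ht hcon) C hC r hr))
  rw [Finset.mem_coe, Finset.mem_product, Finset.mem_range, Finset.mem_range]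
  refine ⟨?_, ht0⟩
  dsimp only
  have h1 : t ^ 2 ≤ t0 ^ 2 := Nat.pow_le_pow_left ht0.le 2
  omega

end Pool.Agent.Results.MP_95cf8e_co.AlmostAllClassZero
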